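import Pool.Agent.Helper76x.HT.Univ3
import Pool.Agent.Helper76x.NZ.Thin
import Pool.Agent.TH747.HT.Main

/-! The theorem of Auslander and Ellis for the shift of the Cantor space. -/

set_option autoImplicit false

namespace Pool.Agent.Helper76x.AE

open Filter Pool.Agent.Helper446 Pool.Agent.Helper446.RE Pool.Agent.Helper446.Oracle
  Pool.Agent.Helper76x.HT Pool.Agent.H645R2.HT Pool.Agent.TH747.HS
  Pool.Agent.Helper446.Defs

/-- The Cantor space. -/
def Cantor : Type := ℕ → Bool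

noncomputable instance : MetricSpace Cantor := PiNat.metricSpace (E := fun _ : ℕ => Bool)

/-- The shift. -/
def T (x : Cantor) : Cantor := fun n => x (n + 1)

/-- Uniformly recurrent points. -/
def UniformlyRecurrent {X : Type} [MetricSpace X] (T : X → X) (y : X) : Prop :=
  ∀ ε : ℝ, 0 < ε → ∃ m, ∀ n, ∃ k < m, dist (T^[n + k] y) y < ε

/-- Proximal points. -/
def Proximal {X : Type} [MetricSpace X] (T : X → X) (x y : X) : Prop :=
  ∀ ε : ℝ, 0 < ε → {n | dist (T^[n] x) (T^[n] y) < ε}.Infinite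

theorem near {x y : Cantor} {L : ℕ} (h : dist x y < (1 / 2) ^ L) {i : ℕ} (hi : i ≤ L) :
    x i = y i :=
  PiNat.apply_eq_of_dist_lt (E := fun _ : ℕ => Bool) h hi

theorem iter (n : ℕ) (x : Cantor) (h : ℕ) : (T^[n] x) h = x (h + n) := by
  induction n generalizing h with
  | zero => rfl
  | succ n ih =>
    rw [Function.iterate_succ_apply']
    show (T^[n] x) (h + 1) = _
    rw [ih]
    congr 1
    omega

theorem continuous_T : Continuous T := by
  have h : Continuous fun (x : ℕ → Bool) (n : ℕ) => x (n + 1) :=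
    continuous_pi fun n => continuous_apply _
  exact h

theorem compact_Cantor : CompactSpace Cantor :=
  inferInstanceAs (CompactSpace (ℕ → Bool))

theorem ext {x y : Cantor} (hU : UniformlyRecurrent T y) (hP : Proximal T x y) (A : Finset ℕ)
    (S : Finset ℕ) (N : ℕ) (hS : ∀ s ∈ S, ∀ a ∈ A, y (a + s) = y a) :
    ∃ n, N < n ∧ ∀ s ∈ insert 0 S, ∀ a ∈ A, x (a + (s + n)) = y a ∧ y (a + (s + n)) = y a := by
  obtain ⟨m, hm⟩ := hU ((1 / 2) ^ (((insert 0 S) ×ˢ A).sup fun p => p.2 + p.1))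
    (by positivity)
  obtain ⟨n, hn, hN⟩ := (hP ((1 / 2) ^ ((((insert 0 S) ×ˢ Finset.range m) ×ˢ A).sup
    fun p => p.2 + (p.1.1 + p.1.2))) (by positivity)).exists_gt N
  obtain ⟨k, hk, hk2⟩ := hm n
  refine ⟨n + k, by omega, fun s hs a ha => ?_⟩
  have e0 : y (a + s) = y a := by
    rcases Finset.mem_insert.1 hs with h | h
    · rw [h, add_zero]
    · exact hS s h a ha
  have e1 := near hk2 (Finset.le_sup (f := fun p : ℕ × ℕ => p.2 + p.1)
    (show (s, a) ∈ (insert 0 S) ×ˢ A from Finset.mk_mem_product hs ha))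
  have e2 := near (hn : dist (T^[n] x) (T^[n] y) < _) (Finset.le_sup
    (f := fun p : (ℕ × ℕ) × ℕ => p.2 + (p.1.1 + p.1.2))
    (show ((s, k), a) ∈ ((insert 0 S) ×ˢ Finset.range m) ×ˢ A from
      Finset.mk_mem_product (Finset.mk_mem_product hs (Finset.mem_range.2 hk)) ha))
  dsimp only at e1 e2
  rw [iter] at e1
  rw [iter, iter] at e2
  have e3 : a + (s + k) + n = a + (s + (n + k)) := by omega
  have e4 : a + s + (n + k) = a + (s + (n + k)) := by omega
  rw [e3] at e2
  rw [e4] at e1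
  exact ⟨e2.trans (e1.trans e0), e1.trans e0⟩

/-- The places with the right values. -/
def Qs (x y : ℕ → Bool) (A : Finset ℕ) : Set ℕ :=
  {n | ∀ a ∈ A, x (a + n) = y a ∧ y (a + n) = y a}

/-- The multiples of `M` among the sums. -/
theorem mult {X : Set ℕ} (hX : X.Infinite) (h0 : 0 ∉ X) {M : ℕ} (hM : 0 < M) :
    ∃ Y : Set ℕ, Y.Infinite ∧ 0 ∉ Y ∧
      (∀ F : Finset ℕ, (F : Set ℕ) ⊆ Y → F.Nonempty → ∑ n ∈ F, n ∈ FS X ∧ M ∣ ∑ n ∈ F, n) ∧
      TuringReducible (chi Y) (chi X) := by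
  obtain ⟨U, hU, hUX⟩ := Pool.Agent.TH747.HT.exists_idem hX fun x hx => Nat.pos_of_ne_zero fun h => h0 (h ▸ hx)
  have hc : Computable fun n : ℕ => n % M :=
    Primrec.nat_mod.to_comp.comp Computable.id (Computable.const M)
  have d1 : REPred fun n : ℕ => n % M = 0 := RE.eq hc (Computable.const 0)
  have d2 : REPred fun n : ℕ => n % M ≠ 0 := RE.ne hc (Computable.const 0)
  obtain ⟨Y, k1, k2, k3, k4⟩ := NZ.greedy (Q := {n | n ∈ FS X ∧ n % M = 0}) (Z := X)
    (REIn.and re_FS (REIn.of_re d1))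
    ((REIn.or re_not_FS (REIn.of_re d2)).of_eq fun n => by
      rw [Set.mem_setOf_eq, not_and_or]) fun S N hS => by
      have hsum : ∀ s ∈ S, ∀ᶠ l in (U : Filter ℕ), s + l ∈ FS X := by
        intro s hs
        obtain ⟨F, f1, f2, rfl⟩ := (hS s hs).1
        filter_upwards [hUX F] with l hl
        obtain ⟨G, g1, g2, g3, rfl⟩ := hl
        refine ⟨F ∪ G, f1.mono Finset.subset_union_left, ?_, Finset.sum_union g3⟩
        rw [Finset.coe_union]
        exact Set.union_subset f2 g2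
      have h3 : ∀ᶠ y in (U : Filter ℕ), ∀ s ∈ S, s + y ∈ FS X := by
        rw [Filter.eventually_all_finset]
        exact hsum
      obtain ⟨y, ⟨⟨k1, k2⟩, k3⟩, k4⟩ :=
        (((h3.and (hUX ∅)).and (hU.dvd (N := M) hM)).and (hU.far N)).exists
      have h6 : y ∈ FS X := by
        obtain ⟨G, g1, g2, -, rfl⟩ := k2
        exact ⟨G, g1, g2, rfl⟩
      have h7 : y % M = 0 := Nat.mod_eq_zero_of_dvd k3
      refine ⟨y, ?_, ⟨h6, h7⟩, fun s hs => ⟨k1 s hs, ?_⟩⟩
      · have h5 := dg_lt (mem_L.1 (la_mem k4.1))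
        have h8 := k4.2
        omega
      · rw [Nat.add_mod, (hS s hs).2, h7]
        simp
  exact ⟨Y, k1, k2, fun F f1 f2 => ⟨(k3 F f1 f2).1, Nat.dvd_of_mod_eq_zero (k3 F f1 f2).2⟩, k4⟩

/-- The places with the right values are decidable from `x` and `y`. -/
theorem re_Qs {x y : ℕ → Bool} (A : Finset ℕ) {Z : Set ℕ}
    (x1 : REIn Z fun n => x n = true) (x2 : REIn Z fun n => x n = false)
    (y1 : REIn Z fun n => y n = true) (y2 : REIn Z fun n => y n = false) :
    (REIn Z fun n => n ∈ Qs x y A) ∧ REIn Z fun n => n ∉ Qs x y A := by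
  have hval : ∀ (a : ℕ) (b : Bool) (z : ℕ → Bool), (REIn Z fun n => z n = true) →
      (REIn Z fun n => z n = false) → REIn Z fun n => z (a + n) = b := by
    intro a b z z1 z2
    have hc : Computable fun n : ℕ => a + n :=
      Primrec.nat_add.to_comp.comp (Computable.const a) Computable.id
    cases b
    · exact z2.comp hc
    · exact z1.comp hc
  have hneg : ∀ u v : Bool, ¬ u = v ↔ u = !v := by decide
  classical
  induction A using Finset.induction_on with
  | empty =>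
    constructor
    · exact (REIn.of_re (RE.eq (Computable.const 0) (Computable.const 0))).of_eq
        fun n => by simp [Qs]
    · exact (REIn.of_re (RE.ne (Computable.const 0) (Computable.const 0))).of_eq
        fun n => by simp [Qs]
  | insert a A _ ih =>
    constructor
    · refine (REIn.and (REIn.and (hval a (y a) x x1 x2) (hval a (y a) y y1 y2)) ih.1).of_eq
        fun n => ?_
      unfold Qs
      simp only [Set.mem_setOf_eq, Finset.mem_insert, forall_eq_or_imp]
    · refine (REIn.or (REIn.or (hval a (!(y a)) x x1 x2) (hval a (!(y a)) y y1 y2)) ih.2).of_eq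
        fun n => ?_
      unfold Qs
      simp only [Set.mem_setOf_eq, Finset.mem_insert, forall_eq_or_imp, not_and_or, hneg]

/-- The sequence which contains all the rows of `g`. -/
def seq (g : ℕ → ℕ → Bool) : ℕ → Bool := fun l => g (la l) (l - 3 ^ la l)

theorem seq_row {g : ℕ → ℕ → Bool} {a n : ℕ} (hn : 0 < n) (hd : 3 ^ (a + 1) ∣ n) :
    seq g (3 ^ a + n) = g a n := by
  have h1 : Sep (3 ^ a) n := by
    have h2 : mu (3 ^ a) = a := Pool.Agent.TH747.HT.mem_L_pow.1 (mu_mem (by positivity))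
    have h3 := Pool.Agent.TH747.HT.le_la_of_dvd hn hd
    show mu (3 ^ a) < la n
    omega
  have h2 : la (3 ^ a + n) = a := (la_add (by positivity) h1).trans Pool.Agent.TH747.HT.la_pow
  unfold seq
  rw [h2, Nat.add_sub_cancel_left]

theorem c_seq {g : ℕ → ℕ → Bool} (hg : Computable fun p : ℕ × ℕ => g p.1 p.2) :
    Computable (seq g) := by
  have h1 : Computable fun l : ℕ => 3 ^ la l := Pool.Agent.TH747.HT.c_pow3 (by fun_prop)
  have h2 : Computable fun l : ℕ => l - 3 ^ la l := Primrec.nat_sub.to_comp.comp Computable.id h1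
  exact hg.comp (g := fun l : ℕ => (la l, l - 3 ^ la l)) (Computable.pair (by fun_prop) h2)

/-- Solutions of Hindman's theorem from solutions of the theorem of Auslander and Ellis. -/
theorem hindman {g : ℕ → ℕ → Bool} {y : Cantor} (hU : UniformlyRecurrent T y)
    (hP : Proximal T (seq g) y) (k : ℕ) {Z : Set ℕ}
    (r1 : REIn Z fun n => n ∈ Qs (seq g) y ((Finset.range k).image fun a => 3 ^ a))
    (r2 : REIn Z fun n => n ∉ Qs (seq g) y ((Finset.range k).image fun a => 3 ^ a)) :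
    ∃ X : Set ℕ, X.Infinite ∧ 0 ∉ X ∧
      (∀ F : Finset ℕ, (F : Set ℕ) ⊆ X → F.Nonempty → ∀ a < k, g a (∑ n ∈ F, n) = y (3 ^ a)) ∧
      TuringReducible (chi X) (chi Z) := by
  obtain ⟨X, h1, h2, h3, h4⟩ := NZ.greedy (Z := Z) r1 r2 fun S N hS => by
    obtain ⟨n, k1, k2⟩ := ext hU hP ((Finset.range k).image fun a => 3 ^ a) S N
      fun s hs a ha => (hS s hs a ha).2
    refine ⟨n, k1, fun a ha => ?_, fun s hs => k2 s (Finset.mem_insert_of_mem hs)⟩
    have := k2 0 (Finset.mem_insert_self _ _) a ha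
    rw [zero_add] at this
    exact this
  obtain ⟨Y, k1, k2, k3, k4⟩ := mult h1 h2 (M := 3 ^ k) (by positivity)
  refine ⟨Y, k1, k2, fun F f1 f2 a ha => ?_, ?_⟩
  · obtain ⟨⟨G, g1, g2, g3⟩, hd⟩ := k3 F f1 f2
    have h5 := (h3 G g2 g1 (3 ^ a) (Finset.mem_image.2 ⟨a, Finset.mem_range.2 ha, rfl⟩)).1
    rw [g3] at h5
    have hpos : 0 < ∑ n ∈ F, n := by
      obtain ⟨n, hn⟩ := f2
      have hn0 : n ≠ 0 := fun h => k2 (h ▸ f1 hn)
      exact Finset.sum_pos' (fun _ _ => Nat.zero_le _) ⟨n, hn, Nat.pos_of_ne_zero hn0⟩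
    rw [← h5, seq_row hpos ((Nat.pow_dvd_pow 3 (by omega)).trans hd)]
  · obtain ⟨m1, m2⟩ := turingReducible_iff.1 k4
    obtain ⟨m3, m4⟩ := turingReducible_iff.1 h4
    exact turingReducible_iff.2 ⟨NZ.re_trans m1 m3 m4, NZ.re_trans m2 m3 m4⟩

variable {R R' : ℕ → ℕ → ℕ → ℕ → ℕ → Bool}

/-- The point of the Cantor space whose rows are the colourings `c2 R R' a`. -/
noncomputable def pt (R R' : ℕ → ℕ → ℕ → ℕ → ℕ → Bool) : ℕ → Bool :=
  seq fun a n => decide (c2 R R' a n = 1)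

theorem c_pt
    (hR : Computable fun q : ℕ × ℕ × ℕ × ℕ × ℕ => R q.1 q.2.1 q.2.2.1 q.2.2.2.1 q.2.2.2.2)
    (hR' : Computable fun q : ℕ × ℕ × ℕ × ℕ × ℕ => R' q.1 q.2.1 q.2.2.1 q.2.2.2.1 q.2.2.2.2) :
    Computable (pt R R') :=
  c_seq (((Primrec.dom_finite fun i : Fin 2 => decide (i = 1)).to_comp).comp (c_c2 hR hR'))

theorem sep {y : Cantor} (hU : UniformlyRecurrent T y) (hP : Proximal T (pt R R') y) (a : ℕ) :
    (S4 R a → ¬ S4 R' a → y (3 ^ a) = true) ∧
      (S4 R' a → ¬ S4 R a → y (3 ^ a) = false) := by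
  obtain ⟨X, h1, h2, h3, -⟩ := hindman hU hP (a + 1)
    (Z := Qs (pt R R') y ((Finset.range (a + 1)).image fun a => 3 ^ a))
    (REIn.mem Computable.id) (REIn.not_mem Computable.id)
  have h4 : ∀ F : Finset ℕ, (F : Set ℕ) ⊆ X → F.Nonempty →
      c2 R R' a (∑ n ∈ F, n) = if y (3 ^ a) = true then 1 else 0 := by
    intro F f1 f2
    have h5 : decide (c2 R R' a (∑ n ∈ F, n) = 1) = y (3 ^ a) := h3 F f1 f2 a (by omega)
    generalize c2 R R' a (∑ n ∈ F, n) = i at h5
    rw [← h5]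
    fin_cases i <;> simp
  constructor
  · intro k1 k2
    by_contra h6
    have h7 := (main2 (HB_lim1 k1 k2) h1 h2 h4).2 trivial
    rw [if_neg h6] at h7
    exact absurd h7 (by decide)
  · intro k1 k2
    by_contra h6
    have h7 := (main2 (HB_lim0 k1 k2) h1 h2 h4).1
    rw [if_pos (by simpa using h6)] at h7
    exact h7 rfl

end Pool.Agent.Helper76x.AE
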